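import Mathlib
import Pool.Agent.H66.Gam1

set_option autoImplicit false

open scoped Pointwise

universe u

/-- Every infinite group `G` has a partition into `|G|` cells, each left and right `ℵ₁`-large. -/
theorem Pool.Agent.Results.MP_e349a0_al.AlephOneLarge.result
    (G : Type u) [Group G] [Infinite G] :
    ∃ P : Set (Set G), Setoid.IsPartition P ∧ Cardinal.mk P = Cardinal.mk G ∧
      ∀ A ∈ P, (∃ F : Set G, Cardinal.mk F < Cardinal.aleph 1 ∧ F * A = Set.univ) ∧
        (∃ F : Set G, Cardinal.mk F < Cardinal.aleph 1 ∧ A * F = Set.univ) := by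
  obtain ⟨P, hP, hc, h⟩ := Pool.Agent.H66.Gam.large_partition G _ (Cardinal.aleph0_le_mk G) le_rfl
  refine ⟨P, hP, hc, fun A hA => ?_⟩
  obtain ⟨⟨F, hF, e⟩, F', hF', e'⟩ := h A hA
  exact ⟨⟨F, hF.trans_le (min_le_right _ _), e⟩, F', hF'.trans_le (min_le_right _ _), e'⟩
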